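import Pool.Agent.helper45.PV.SpecG

/-! ROW pvg:K1D (helper92). -/

set_option autoImplicit false

open scoped Matrix Topology

namespace Pool.Agent.PV

open Pool.Agent.CZ

/-- the image of the inverse is a left inverse of the image -/
theorem K1D_inv {R S ι : Type} [Ring R] [Ring S] [Fintype ι] [DecidableEq ι] (f : R →+* S)
    (Y : (Matrix ι ι R)ˣ) : ((Y⁻¹ : (Matrix ι ι R)ˣ) : Matrix ι ι R).map f * (Y : Matrix ι ι R).map f = 1 := by
  rw [← Matrix.map_mul, Y.inv_mul]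
  exact map_one f.mapMatrix

theorem K1D (hK1M : K1M_stmt) (hSCL : SCL_stmt) : K1D_stmt := by
  intro C D _ _ _ _ φ χ ι _ _ X hX
  obtain ⟨Y, hY1, hY2, hY3⟩ := hSCL C D φ ι (umap (eM φ χ).toRingHom X)
  have h1 : ((Y⁻¹ : (Matrix ι ι (MC φ))ˣ) : Matrix ι ι (MC φ)).map (gM φ) = 1 := by
    have h := K1D_inv (gM φ).toRingHom Y
    have h' : (Y : Matrix ι ι (MC φ)).map (gM φ).toRingHom = 1 := hY1
    rw [h', mul_one] at h
    exact h
  have h2 : (X : Matrix ι ι (MC φ)).map (pM φ 0) = (Y : Matrix ι ι (MC φ)).map (pM φ 0) := by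
    rw [hY2]
    ext i j
    exact MC_eq0 φ χ ((X : Matrix ι ι (MC φ)) i j)
  refine ⟨Y⁻¹ * X, ?_, ?_, ?_⟩
  · rw [(hK1M _ ι Y⁻¹ X).1, (hK1M _ ι Y X).2.1, hY3, neg_zero, zero_add]
  · rw [Units.val_mul, Matrix.map_mul, h1, hX, one_mul]
  · rw [Units.val_mul, Matrix.map_mul, h2]
    exact K1D_inv (pM φ 0).toRingHom Y

end Pool.Agent.PV
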