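import Pool.Agent.helper77.PV.SpecA

/-! ROW pv:CI1 (helper92): injectivity part of the continuity of `K₁`. -/

set_option autoImplicit false

open scoped Matrix Topology
open Filter

namespace Pool.Agent.PV

open Pool.Agent.CZ

/-- Neumann series in a closed subring -/
theorem CI1_neu {R : Type} [NormedRing R] [CompleteSpace R] (T : Subring R) (hT : IsClosed (T : Set R)) (a : R)
    (ha : a ∈ T) (h : ‖1 - a‖ < 1) : ∃ b ∈ T, a * b = 1 ∧ b * a = 1 := by
  have hs := summable_geometric_of_norm_lt_one h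
  refine ⟨∑' n, (1 - a) ^ n, ?_, ?_, ?_⟩
  · refine hT.mem_of_tendsto hs.hasSum.tendsto_sum_nat (Eventually.of_forall fun n => ?_)
    exact T.sum_mem fun i _ => T.pow_mem (T.sub_mem T.one_mem ha) i
  · have h1 := mul_neg_geom_series (1 - a) h
    rwa [sub_sub_cancel] at h1
  · have h1 := geom_series_mul_neg (1 - a) h
    rwa [sub_sub_cancel] at h1

/-- elements of a directed union of closed subrings near a unit are invertible in the union -/
theorem CI1_unit {R I : Type} [NormedRing R] [CompleteSpace R] (T : Finset I → Subring R) (hT : Monotone T)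
    (hc : ∀ F, IsClosed (T F : Set R)) (hd : Dense {a : R | ∃ F, a ∈ T F}) (g : Rˣ) :
    ∃ U ∈ 𝓝 (g : R), ∀ (F : Finset I) (h : R), h ∈ T F → h ∈ U →
      ∃ F' : Finset I, F ⊆ F' ∧ ∃ h' ∈ T F', h * h' = 1 ∧ h' * h = 1 := by
  classical
  refine ⟨{x | IsUnit x}, Units.nhds g, ?_⟩
  rintro F h hF ⟨u, rfl⟩
  have ho : IsOpen {k : R | ‖1 - (u : R) * k‖ < 1} :=
    isOpen_lt (continuous_const.sub (continuous_const.mul continuous_id)).norm continuous_const
  obtain ⟨k, ⟨F2, hk⟩, hk1⟩ := hd.exists_mem_open ho ⟨((u⁻¹ : Rˣ) : R), by simp⟩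
  have h1 : (u : R) ∈ T (F ∪ F2) := hT Finset.subset_union_left hF
  have h2 : k ∈ T (F ∪ F2) := hT Finset.subset_union_right hk
  obtain ⟨b, hb, hb1, -⟩ := CI1_neu (T (F ∪ F2)) (hc _) _ ((T (F ∪ F2)).mul_mem h1 h2) hk1
  refine ⟨F ∪ F2, Finset.subset_union_left, k * b, (T (F ∪ F2)).mul_mem h2 hb, ?_, ?_⟩
  · rw [← mul_assoc, hb1]
  · have h3 : (u : R) * (k * b) = 1 := by rw [← mul_assoc, hb1]
    have h4 : k * b = ((u⁻¹ : Rˣ) : R) := by
      rw [← one_mul (k * b), ← u.inv_mul, mul_assoc, h3, mul_one]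
    rw [h4, u.inv_mul]

/-- `a ↦ φ a` -/
def CI1_L {E : Type} [NormedAddCommGroup E] [NormedSpace ℝ E] (φ : C(unitInterval, ℝ)) (a : E) :
    C(unitInterval, E) := ⟨fun t => φ t • a, by fun_prop⟩

theorem CI1_Lc {E : Type} [NormedAddCommGroup E] [NormedSpace ℝ E] (φ : C(unitInterval, ℝ)) :
    Continuous (CI1_L (E := E) φ) := by
  refine ContinuousMap.continuous_of_continuous_uncurry _ ?_
  change Continuous fun p : E × unitInterval => φ p.2 • p.1
  fun_prop

/-- the functions with values in one of the subspaces -/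
def CI1_W {E I : Type} [NormedAddCommGroup E] (T : Finset I → AddSubgroup E) (hT : Monotone T) :
    AddSubgroup C(unitInterval, E) where
  carrier := {δ | ∃ F, ∀ t, δ t ∈ T F}
  zero_mem' := ⟨∅, fun t => (T ∅).zero_mem⟩
  add_mem' := by
    classical
    rintro a b ⟨F, hF⟩ ⟨G, hG⟩
    exact ⟨F ∪ G, fun t => (T (F ∪ G)).add_mem (hT Finset.subset_union_left (hF t))
      (hT Finset.subset_union_right (hG t))⟩
  neg_mem' := by
    rintro a ⟨F, hF⟩
    exact ⟨F, fun t => (T F).neg_mem (hF t)⟩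

theorem CI1_den {E I : Type} [NormedAddCommGroup E] [NormedSpace ℝ E] (T : Finset I → AddSubgroup E)
    (hT : Monotone T) (hr : ∀ F (r : ℝ), ∀ a ∈ T F, r • a ∈ T F) (hd : Dense {a : E | ∃ F, a ∈ T F}) :
    Dense {δ : C(unitInterval, E) | ∃ F, ∀ t, δ t ∈ T F} := by
  intro f
  change f ∈ ((CI1_W T hT).topologicalClosure : Set C(unitInterval, E))
  refine (CI1_W T hT).isClosed_topologicalClosure.mem_of_tendsto (bernsteinApproximation_uniform f)
    (Eventually.of_forall fun n => ?_)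
  refine AddSubgroup.sum_mem _ fun k _ => ?_
  have h1 : bernstein n k • ContinuousMap.const unitInterval (f (bernstein.z k)) =
      CI1_L (bernstein n k) (f (bernstein.z k)) := by
    ext t
    rfl
  rw [h1]
  change _ ∈ closure ((CI1_W T hT : AddSubgroup C(unitInterval, E)) : Set C(unitInterval, E))
  refine map_mem_closure (CI1_Lc (bernstein n k)) (hd (f (bernstein.z k))) ?_
  rintro a ⟨F, hF⟩
  exact ⟨F, fun t => hr F _ a hF⟩

/-- paths in a subring -/
def CI1_P {E I : Type} [NormedRing E] (T : Finset I → Subring E) (F : Finset I) : Subring C(unitInterval, E) where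
  carrier := {δ | ∀ t, δ t ∈ T F}
  zero_mem' := fun _ => (T F).zero_mem
  one_mem' := fun _ => (T F).one_mem
  add_mem' := fun ha hb t => (T F).add_mem (ha t) (hb t)
  neg_mem' := fun ha t => (T F).neg_mem (ha t)
  mul_mem' := fun ha hb t => (T F).mul_mem (ha t) (hb t)

theorem CI1_Pc {E I : Type} [NormedRing E] (T : Finset I → Subring E) (hc : ∀ F, IsClosed (T F : Set E)) (F : Finset I) :
    IsClosed (CI1_P T F : Set C(unitInterval, E)) := by
  have h1 : (CI1_P T F : Set C(unitInterval, E)) = ⋂ t, {δ | δ t ∈ T F} := by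
    ext δ
    simp only [Set.mem_iInter]
    rfl
  rw [h1]
  exact isClosed_iInter fun t => (hc F).preimage (continuous_eval_const t)

/-- an approximation of a path of units with the same ends -/
theorem CI1_gen {E I : Type} [NormedRing E] [NormedAlgebra ℝ E] [CompleteSpace E] (T : Finset I → Subring E)
    (hT : Monotone T) (hc : ∀ F, IsClosed (T F : Set E)) (hr : ∀ F (r : ℝ), ∀ a ∈ T F, r • a ∈ T F)
    (hd : Dense {a : E | ∃ F, a ∈ T F}) (F : Finset I) (γ : C(unitInterval, E))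
    (hγ : ∀ t, IsUnit (γ t)) (h0 : γ 0 ∈ T F) (h1 : γ 1 ∈ T F) :
    ∃ (F' : Finset I) (_ : F ⊆ F') (δ δ' : C(unitInterval, E)),
      (∀ t, δ t ∈ T F') ∧ (∀ t, δ' t ∈ T F') ∧ (∀ t, δ t * δ' t = 1 ∧ δ' t * δ t = 1) ∧
      δ 0 = γ 0 ∧ δ 1 = γ 1 := by
  classical
  have hP : Monotone fun F => CI1_P T F := fun F G hFG a ha t => hT hFG (ha t)
  have hD : Dense {δ : C(unitInterval, E) | ∃ F, δ ∈ CI1_P T F} :=
    CI1_den (fun F => (T F).toAddSubgroup) hT hr hd
  obtain ⟨g, hg⟩ := (ContinuousMap.isUnit_iff_forall_isUnit γ).2 hγ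
  obtain ⟨U, hU, hUs⟩ := CI1_unit (fun F => CI1_P T F) hP (CI1_Pc T hc) hD g
  rw [hg] at hU
  let φ : C(unitInterval, ℝ) := ⟨fun t => 1 - (t : ℝ), by fun_prop⟩
  let ψ : C(unitInterval, ℝ) := ⟨fun t => (t : ℝ), by fun_prop⟩
  let Φ : C(unitInterval, E) → C(unitInterval, E) :=
    fun δ => δ + CI1_L φ (γ 0 - δ 0) + CI1_L ψ (γ 1 - δ 1)
  have hΦ : Continuous Φ := by
    have c0 : Continuous fun δ : C(unitInterval, E) => γ 0 - δ 0 := continuous_const.sub (continuous_eval_const 0)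
    have c1 : Continuous fun δ : C(unitInterval, E) => γ 1 - δ 1 := continuous_const.sub (continuous_eval_const 1)
    exact (continuous_id.add ((CI1_Lc φ).comp c0)).add ((CI1_Lc ψ).comp c1)
  have hΦt : ∀ δ t, Φ δ t = δ t + (1 - (t : ℝ)) • (γ 0 - δ 0) + (t : ℝ) • (γ 1 - δ 1) := fun _ _ => rfl
  have hΦγ : Φ γ = γ := by
    ext1 t
    rw [hΦt, sub_self, sub_self, smul_zero, smul_zero, add_zero, add_zero]
  have hV : Φ ⁻¹' U ∈ 𝓝 γ := hΦ.continuousAt.preimage_mem_nhds (by rw [hΦγ]; exact hU)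
  obtain ⟨δ, hδU, F1, hδ⟩ := mem_closure_iff_nhds.1 (hD γ) _ hV
  have hδ1 : Φ δ ∈ CI1_P T (F ∪ F1) := by
    intro t
    have hF : ∀ a ∈ T F, a ∈ T (F ∪ F1) := hT Finset.subset_union_left
    have hF1 : ∀ a ∈ T F1, a ∈ T (F ∪ F1) := hT Finset.subset_union_right
    rw [hΦt]
    refine (T (F ∪ F1)).add_mem ((T (F ∪ F1)).add_mem (hF1 _ (hδ t)) ?_) ?_
    · exact hr _ _ _ ((T (F ∪ F1)).sub_mem (hF _ h0) (hF1 _ (hδ 0)))
    · exact hr _ _ _ ((T (F ∪ F1)).sub_mem (hF _ h1) (hF1 _ (hδ 1)))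
  obtain ⟨F', hF', δ', hδ', h2, h3⟩ := hUs _ _ hδ1 hδU
  refine ⟨F', Finset.subset_union_left.trans hF', Φ δ, δ', hP hF' hδ1, hδ', fun t => ⟨?_, ?_⟩, ?_, ?_⟩
  · exact congrArg (fun f : C(unitInterval, E) => f t) h2
  · exact congrArg (fun f : C(unitInterval, E) => f t) h3
  · rw [hΦt]
    simp
  · rw [hΦt]
    simp

theorem CI1_mat {A I J : Type} [Fintype J] [DecidableEq J] [NormedRing A] [NormedAlgebra ℂ A]
    (S : Finset I → Subalgebra ℂ A) (hS : Monotone S) (hd : Dense {a : A | ∃ F, a ∈ S F}) :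
    Dense {M : Matrix J J A | ∃ F, ∀ i j, M i j ∈ S F} := by
  classical
  have h1 : Dense (Set.pi Set.univ fun _ : J => Set.pi Set.univ fun _ : J => {a : A | ∃ F, a ∈ S F}) :=
    dense_pi _ fun _ _ => dense_pi _ fun _ _ => hd
  refine h1.mono ?_
  intro M hM
  have h2 : ∀ i j, ∃ F, M i j ∈ S F := fun i j => hM i trivial j trivial
  choose F hF using h2
  refine ⟨Finset.univ.biUnion fun i => Finset.univ.biUnion fun j => F i j, fun i j => ?_⟩
  refine hS ?_ (hF i j)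
  intro x hx
  exact Finset.mem_biUnion.2 ⟨i, Finset.mem_univ i, Finset.mem_biUnion.2 ⟨j, Finset.mem_univ j, hx⟩⟩

attribute [local instance] Matrix.linftyOpNormedRing Matrix.linftyOpNormedAlgebra

/-- matrices over `S F` -/
def CI1_T {A I J : Type} [Fintype J] [DecidableEq J] [NormedRing A] [NormedAlgebra ℂ A]
    (S : Finset I → Subalgebra ℂ A) (F : Finset I) : Subring (Matrix J J A) where
  carrier := {M | ∀ i j, M i j ∈ S F}
  zero_mem' := fun _ _ => (S F).zero_mem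
  one_mem' := fun i j => by
    rw [Matrix.one_apply]
    split_ifs
    · exact (S F).one_mem
    · exact (S F).zero_mem
  add_mem' := fun ha hb i j => (S F).add_mem (ha i j) (hb i j)
  neg_mem' := fun ha i j => (S F).neg_mem (ha i j)
  mul_mem' := fun ha hb i j => by
    rw [Matrix.mul_apply]
    exact (S F).sum_mem fun k _ => (S F).mul_mem (ha i k) (hb k j)

theorem CI1_path {A I J : Type} [Fintype J] [DecidableEq J] [NormedRing A] [NormedAlgebra ℂ A] [CompleteSpace A]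
    (S : Finset I → Subalgebra ℂ A) (hS : Monotone S) (hc : ∀ F, IsClosed (S F : Set A))
    (hd : Dense {a : A | ∃ F, a ∈ S F}) (F : Finset I) (γ : C(unitInterval, Matrix J J A))
    (hγ : ∀ t, IsUnit (γ t)) (h0 : ∀ i j, γ 0 i j ∈ S F) (h1 : ∀ i j, γ 1 i j ∈ S F) :
    ∃ (F' : Finset I) (_ : F ⊆ F') (δ δ' : C(unitInterval, Matrix J J A)),
      (∀ t i j, δ t i j ∈ S F') ∧ (∀ t i j, δ' t i j ∈ S F') ∧ (∀ t, δ t * δ' t = 1 ∧ δ' t * δ t = 1) ∧
      δ 0 = γ 0 ∧ δ 1 = γ 1 := by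
  have hcs : @CompleteSpace (Matrix J J A)
      (Matrix.linftyOpNormedRing (α := A) (n := J)).toMetricSpace.toPseudoMetricSpace.toUniformSpace :=
    (inferInstance : CompleteSpace (J → J → A))
  have hT : Monotone fun F => CI1_T (J := J) S F := fun F G hFG a ha i j => hS hFG (ha i j)
  have hcl : ∀ F, IsClosed (CI1_T (J := J) S F : Set (Matrix J J A)) := by
    intro F
    have h1 : (CI1_T (J := J) S F : Set (Matrix J J A)) = ⋂ i, ⋂ j, (fun M : Matrix J J A => M i j) ⁻¹' (S F : Set A) := by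
      ext M
      simp only [Set.mem_iInter, Set.mem_preimage, SetLike.mem_coe]
      exact Iff.rfl
    rw [h1]
    exact isClosed_iInter fun i => isClosed_iInter fun j => (hc F).preimage (Continuous.matrix_elem continuous_id i j)
  let _ : NormedAlgebra ℝ A := NormedAlgebra.restrictScalars ℝ ℂ A
  have hr : ∀ (F : Finset I) (r : ℝ), ∀ a ∈ CI1_T (J := J) S F, r • a ∈ CI1_T (J := J) S F := by
    intro F r a ha i j
    have h2 : (r • a) i j = (r : ℂ) • a i j := rfl
    rw [h2]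
    exact (S F).smul_mem (ha i j) _
  exact @CI1_gen (Matrix J J A) I _ _ hcs (fun F => CI1_T (J := J) S F) hT hcl hr (CI1_mat S hS hd) F γ hγ h0 h1

/-- a path of matrices over `A` with entries in `S` is a path of matrices over `S` -/
theorem CI1_htp {A J : Type} [Fintype J] [DecidableEq J] [NormedRing A] [NormedAlgebra ℂ A]
    (S : Subalgebra ℂ A) (g h : (Matrix J J S)ˣ) (δ δ' : C(unitInterval, Matrix J J A))
    (hδ : ∀ t i j, δ t i j ∈ S) (hδ' : ∀ t i j, δ' t i j ∈ S) (hd : ∀ t, δ t * δ' t = 1 ∧ δ' t * δ t = 1)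
    (h0 : ∀ i j, δ 0 i j = ((g : Matrix J J S) i j : A)) (h1 : ∀ i j, δ 1 i j = ((h : Matrix J J S) i j : A)) :
    Htp g h := by
  refine ⟨⟨fun t => Matrix.of fun i j => ⟨δ t i j, hδ t i j⟩, ?_⟩, ?_, ?_, ?_⟩
  · refine continuous_matrix fun i j => ?_
    refine Continuous.subtype_mk ?_ _
    exact (continuous_apply_apply i j).comp δ.continuous
  · intro t
    refine ⟨⟨Matrix.of fun i j => ⟨δ t i j, hδ t i j⟩, Matrix.of fun i j => ⟨δ' t i j, hδ' t i j⟩, ?_, ?_⟩, rfl⟩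
    · ext i j
      have h2 := congrFun (congrFun (hd t).1 i) j
      rw [Matrix.mul_apply] at h2 ⊢
      rw [AddSubmonoidClass.coe_finsetSum]
      rw [Matrix.one_apply] at h2 ⊢
      refine (h2.trans ?_)
      split_ifs <;> rfl
    · ext i j
      have h2 := congrFun (congrFun (hd t).2 i) j
      rw [Matrix.mul_apply] at h2 ⊢
      rw [AddSubmonoidClass.coe_finsetSum]
      rw [Matrix.one_apply] at h2 ⊢
      refine (h2.trans ?_)
      split_ifs <;> rfl
  · ext i j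
    exact h0 i j
  · ext i j
    exact h1 i j

theorem CI1 (hK1G : K1G_stmt) (hK1Z : K1Z_stmt) (hK1M : K1M_stmt) (hK1C : K1C_stmt) (hK1B : K1B_stmt) : CI1_stmt := by
  intro A I _ _ _ S hS hcl hd F w hw
  obtain ⟨n, g, rfl⟩ := hK1G _ w
  have hw1 : k1 (umap (S F).val.toRingHom g) = 0 := hw
  obtain ⟨k, g', hg', γ, hγ, h0, h1⟩ := hK1Z A (Fin n) _ hw1
  have e0 : ∀ i j, γ 0 i j = ((Matrix.fromBlocks (g : Matrix (Fin n) (Fin n) (S F)) 0 0 1 :
      Matrix (Fin n ⊕ Fin k) (Fin n ⊕ Fin k) (S F)) i j : A) := by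
    intro i j
    rw [h0, hg']
    rcases i with i | i <;> rcases j with j | j
    · rfl
    · rfl
    · rfl
    · simp only [Matrix.fromBlocks_apply₂₂, Matrix.one_apply]
      split_ifs <;> rfl
  have e1 : ∀ i j, γ 1 i j = ((1 : Matrix (Fin n ⊕ Fin k) (Fin n ⊕ Fin k) (S F)) i j : A) := by
    intro i j
    rw [h1, Units.val_one, Matrix.one_apply, Matrix.one_apply]
    split_ifs <;> rfl
  obtain ⟨F', hF, δ, δ', hδ, hδ', hdd, hd0, hd1⟩ := CI1_path S hS hcl hd F γ hγ
    (fun i j => by rw [e0 i j]; exact Subtype.coe_prop _) (fun i j => by rw [e1 i j]; exact Subtype.coe_prop _)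
  refine ⟨F', hF, fun hc => ?_⟩
  rw [k1map_k1]
  let G : (Matrix (Fin n) (Fin n) (S F'))ˣ := umap (Subalgebra.inclusion (hS hF)).toRingHom g
  let K : (Matrix (Fin n ⊕ Fin k) (Fin n ⊕ Fin k) (S F'))ˣ :=
    ⟨Matrix.fromBlocks (G : Matrix (Fin n) (Fin n) (S F')) 0 0 1,
     Matrix.fromBlocks ((G⁻¹ : (Matrix (Fin n) (Fin n) (S F'))ˣ) : Matrix (Fin n) (Fin n) (S F')) 0 0 1,
     by simp [Matrix.fromBlocks_multiply], by simp [Matrix.fromBlocks_multiply]⟩
  have hK1 : k1 K = k1 G + k1 (1 : (Matrix (Fin k) (Fin k) (S F'))ˣ) := hK1B _ _ _ _ _ _ rfl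
  have hK2 : k1 K = k1 (1 : (Matrix (Fin n ⊕ Fin k) (Fin n ⊕ Fin k) (S F'))ˣ) := by
    refine (hK1M _ _ K 1).2.2.2 ?_
    refine CI1_htp (S F') K 1 δ δ' hδ hδ' hdd ?_ ?_
    · intro i j
      rw [hd0, e0]
      rcases i with i | i <;> rcases j with j | j
      · rfl
      · rfl
      · rfl
      · change (((1 : Matrix (Fin k) (Fin k) (S F)) i j : S F) : A) = (((1 : Matrix (Fin k) (Fin k) (S F')) i j : S F') : A)
        rw [Matrix.one_apply, Matrix.one_apply]
        split_ifs <;> rfl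
    · intro i j
      rw [hd1, e1, Units.val_one, Matrix.one_apply, Matrix.one_apply]
      split_ifs <;> rfl
  rw [(hK1M _ _ (1 : (Matrix (Fin k) (Fin k) (S F'))ˣ) 1).2.2.1, add_zero,
    hK2, (hK1M _ _ (1 : (Matrix (Fin n ⊕ Fin k) (Fin n ⊕ Fin k) (S F'))ˣ) 1).2.2.1] at hK1
  exact hK1.symm

end Pool.Agent.PV
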