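import Pool.Agent.helper77.PV.SpecK2

set_option autoImplicit false

open scoped Matrix Topology TensorProduct
open Filter

namespace Pool.Agent.PV

open Pool.Agent.CZ Pool.Agent.PVH

/-- a countable torsion free group embeds in the reals -/
theorem KPR_emb (Q : Type) [AddCommGroup Q] [Countable Q] (htf : ∀ (n : ℕ) (x : Q), n ≠ 0 → n • x = 0 → x = 0) :
    ∃ f : Q →+ ℝ, Function.Injective f := by
  let j : Q →ₗ[ℤ] ℚ ⊗[ℤ] Q := TensorProduct.mk ℤ ℚ Q 1
  have hloc : IsLocalizedModule (nonZeroDivisors ℤ) j :=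
    (isLocalizedModule_iff_isBaseChange (nonZeroDivisors ℤ) ℚ _).mpr (TensorProduct.isBaseChange ℤ Q ℚ)
  have hj : Function.Injective j := by
    rw [injective_iff_map_eq_zero]
    intro x hx
    have h1 : j x = j 0 := by rw [hx, map_zero]
    obtain ⟨⟨c, hc⟩, h2⟩ := (IsLocalizedModule.eq_iff_exists (nonZeroDivisors ℤ) j).1 h1
    have h3 : c • x = 0 := by
      have h4 : c • x = c • (0 : Q) := h2
      rwa [smul_zero] at h4
    have h5 : c ≠ 0 := nonZeroDivisors.ne_zero hc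
    refine htf c.natAbs x (Int.natAbs_ne_zero.2 h5) ?_
    rcases Int.natAbs_eq c with h | h
    · rw [← natCast_zsmul, ← h, h3]
    · rw [← natCast_zsmul]
      have h6 : ((c.natAbs : ℕ) : ℤ) = -c := by omega
      rw [h6, neg_smul, h3, neg_zero]
  have hr : Module.rank ℚ (ℚ ⊗[ℤ] Q) ≤ Cardinal.aleph0 := by
    have h1 : Submodule.span ℚ (Set.range j) = ⊤ := by
      rw [eq_top_iff]
      rintro x -
      induction x using TensorProduct.induction_on with
      | zero => exact Submodule.zero_mem _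
      | tmul a b =>
        have h2 : a ⊗ₜ[ℤ] b = a • j b := by
          change a ⊗ₜ[ℤ] b = a • ((1 : ℚ) ⊗ₜ[ℤ] b)
          rw [TensorProduct.smul_tmul', smul_eq_mul, mul_one]
        rw [h2]
        exact Submodule.smul_mem _ _ (Submodule.subset_span ⟨b, rfl⟩)
      | add x y hx hy => exact Submodule.add_mem _ hx hy
    have h3 := rank_span_le (R := ℚ) (Set.range j)
    rw [h1, rank_top] at h3
    exact h3.trans (Cardinal.mk_le_aleph0_iff.2 (Set.countable_range j).to_subtype)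
  have hr2 : Module.rank ℚ (ℚ ⊗[ℤ] Q) ≤ Module.rank ℚ ℝ := by
    rw [Real.rank_rat_real]
    exact hr.trans Cardinal.aleph0_le_continuum
  obtain ⟨f, hf⟩ := rank_le_iff_exists_linearMap.1 hr2
  exact ⟨(f : ℚ ⊗[ℤ] Q →+ ℝ).comp (j : Q →+ ℚ ⊗[ℤ] Q), hf.comp hj⟩

theorem KPR : KPR_stmt := by
  intro G₀ _ _ H S hHS htf hnc g hg hg0
  have hdec : ∀ z : G₀, ∃ x ∈ H, ∃ y ∈ S, x + y = z := by
    intro z
    have h1 : z ∈ H ⊔ S := by rw [hHS.sup_eq_top]; trivial
    exact AddSubgroup.mem_sup.1 h1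
  have hint : ∀ z, z ∈ H → z ∈ S → z = 0 := by
    intro z h1 h2
    have h3 : z ∈ H ⊓ S := ⟨h1, h2⟩
    rw [hHS.inf_eq_bot] at h3
    exact h3
  have hcount : Countable (G₀ ⧸ S) := (QuotientAddGroup.mk_surjective (s := S)).countable
  obtain ⟨f, hf⟩ := KPR_emb (G₀ ⧸ S) (by
    intro n x hn hx
    obtain ⟨z, rfl⟩ := QuotientAddGroup.mk_surjective x
    obtain ⟨a, ha, b, hb, rfl⟩ := hdec z
    have h1 : n • (a + b) ∈ S := by
      rw [← QuotientAddGroup.eq_zero_iff]
      exact hx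
    have h2 : n • a ∈ S := by
      have h3 := S.sub_mem h1 (S.nsmul_mem hb n)
      rwa [nsmul_add, add_sub_cancel_right] at h3
    have h4 := hint _ (H.nsmul_mem ha n) h2
    have h5 := htf n a hn ha h4
    rw [QuotientAddGroup.eq_zero_iff, h5, zero_add]
    exact hb)
  let φ : G₀ →+ ℝ := f.comp (QuotientAddGroup.mk' S)
  have hφS : ∀ x ∈ S, φ x = 0 := by
    intro x hx
    change f ((x : G₀) : G₀ ⧸ S) = 0
    rw [(QuotientAddGroup.eq_zero_iff x).2 hx, map_zero]
  have hφH : ∀ x ∈ H, φ x = 0 → x = 0 := by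
    intro x hx h
    have h1 : f ((x : G₀) : G₀ ⧸ S) = f 0 := by rw [map_zero]; exact h
    have h2 := hf h1
    exact hint x hx ((QuotientAddGroup.eq_zero_iff x).1 h2)
  have hφg : φ g ≠ 0 := fun h => hg0 (hφH g hg h)
  let ρ : G₀ →+ ℝ := (AddMonoidHom.mulLeft (φ g)⁻¹).comp φ
  have hρ : ∀ x, ρ x = (φ g)⁻¹ * φ x := fun _ => rfl
  refine ⟨ρ, ?_, ?_, ?_⟩
  · rw [hρ, inv_mul_cancel₀ hφg]
  · intro x hx
    rw [hρ, hφS x hx, mul_zero]
  · rcases AddSubgroup.dense_or_cyclic ρ.range with h | ⟨a, ha⟩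
    · exact h
    · exfalso
      have h1 : a ∈ ρ.range := by rw [ha]; exact AddSubgroup.subset_closure rfl
      obtain ⟨z, hz⟩ := h1
      obtain ⟨x, hx, y, hy, rfl⟩ := hdec z
      have hxa : ρ x = a := by
        rw [← hz, map_add, hρ y, hφS y hy, mul_zero, add_zero]
      refine hnc ⟨x, fun w hw => ?_⟩
      have h2 : ρ w ∈ AddSubgroup.closure {a} := by rw [← ha]; exact ⟨w, rfl⟩
      obtain ⟨n, hn⟩ := AddSubgroup.mem_closure_singleton.1 h2
      refine ⟨n, ?_⟩
      have h3 : φ (w - n • x) = 0 := by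
        have h4 : ρ (w - n • x) = 0 := by rw [map_sub, map_zsmul, hxa, hn, sub_self]
        rw [hρ] at h4
        exact (mul_eq_zero.1 h4).resolve_left (inv_ne_zero hφg)
      have h5 := hφH _ (H.sub_mem hw (H.zsmul_mem hx n)) h3
      exact sub_eq_zero.1 h5

end Pool.Agent.PV
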