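import Pool.Agent.helper77.PV.SpecC

/-! ROW pv:PVS (helper92): the Pimsner-Voiculescu sequence, assembly. -/

set_option autoImplicit false

open scoped Matrix Topology
open Filter

namespace Pool.Agent.PV

open Pool.Agent.CZ

theorem PVS (hT1 : T1_stmt) (hT1C : T1C_stmt) (hT2 : T2_stmt) (hD1E : D1E_stmt) (hD1K : D1K_stmt) (hD1P : D1P_stmt) (hD0E : D0E_stmt) (hD0X : D0X_stmt) (hD0Y : D0Y_stmt) (hD0Z : D0Z_stmt) (hFUN : FUN_stmt) : PVS_stmt := by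
  intro B A _ _ _ _ _ _ al io u c hi ha hZ
  obtain ⟨d1, hd1⟩ := hD1E B A al io u c hZ
  obtain ⟨d0, hd0⟩ := hD0E B A al io u c hZ
  obtain ⟨p1, p2, p3, p4⟩ := hD1P B A al io u c hi hZ d1 hd1
  obtain ⟨q1, q2⟩ := hD0Y B A al io u c hZ d0 hd0
  obtain ⟨r1, r2⟩ := hT1C B A al io u c hZ
  refine ⟨d1, d0, hd1, hd0, fun z => ⟨hT1 B A al io u c hZ z, ?_⟩, fun z => ⟨hD0X B A al io u c hZ d0 hd0 z, ?_⟩,
    fun y => ⟨hD0Z B A al io u c hZ d0 hd0 ha y, ?_⟩, fun y => ⟨hT2 B A al io u c hi ha hZ y, ?_⟩,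
    fun y => ⟨hD1K B A al io u c hi hZ d1 hd1 y, ?_⟩, fun z => ⟨p3 z, ?_⟩, p4⟩
  · rintro ⟨w, rfl⟩
    rw [map_sub, r1, sub_self]
  · rintro ⟨w, rfl⟩
    exact q1 w
  · rintro ⟨z, rfl⟩
    exact q2 ha z
  · rintro ⟨w, rfl⟩
    rw [map_sub, r2, sub_self]
  · rintro ⟨w, rfl⟩
    exact p1 w
  · rintro ⟨y, rfl⟩
    exact p2 y

end Pool.Agent.PV
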