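import Pool.Agent.helper77.PV.SpecA

set_option autoImplicit false

open scoped Matrix Topology
open Filter

namespace Pool.Agent.PV

open Pool.Agent.CZ

theorem TRI : TRI_stmt := by
  intro ι _ _ e he
  set T : (ι → ℂ) →ₗ[ℂ] (ι → ℂ) := Matrix.toLin' e with hT
  have hTT : ∀ v, T (T v) = T v := by
    intro v
    rw [hT, ← Matrix.toLin'_mul_apply, he]
  set b := Module.finBasis ℂ (LinearMap.range T) with hb
  set X : (Fin (Module.finrank ℂ (LinearMap.range T)) → ℂ) →ₗ[ℂ] (ι → ℂ) :=
    (LinearMap.range T).subtype ∘ₗ b.equivFun.symm.toLinearMap with hX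
  set Y : (ι → ℂ) →ₗ[ℂ] (Fin (Module.finrank ℂ (LinearMap.range T)) → ℂ) :=
    b.equivFun.toLinearMap ∘ₗ T.rangeRestrict with hY
  have hXY : X ∘ₗ Y = T := by
    refine LinearMap.ext fun v => ?_
    show ((b.equivFun.symm (b.equivFun (T.rangeRestrict v)) : LinearMap.range T) : ι → ℂ) = T v
    rw [LinearEquiv.symm_apply_apply]
    rfl
  have hYX : Y ∘ₗ X = LinearMap.id := by
    refine LinearMap.ext fun v => ?_
    show b.equivFun (T.rangeRestrict ((b.equivFun.symm v : LinearMap.range T) : ι → ℂ)) = v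
    have h1 : T.rangeRestrict ((b.equivFun.symm v : LinearMap.range T) : ι → ℂ) = b.equivFun.symm v := by
      refine Subtype.ext ?_
      show T ((b.equivFun.symm v : LinearMap.range T) : ι → ℂ) = _
      obtain ⟨u, hu⟩ := (b.equivFun.symm v).2
      rw [← hu, hTT]
    rw [h1, LinearEquiv.apply_symm_apply]
  have h1 : LinearMap.toMatrix' X * LinearMap.toMatrix' Y = e := by
    rw [← LinearMap.toMatrix'_comp, hXY, hT, LinearMap.toMatrix'_toLin']
  have h2 : LinearMap.toMatrix' Y * LinearMap.toMatrix' X = 1 := by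
    rw [← LinearMap.toMatrix'_comp, hYX, LinearMap.toMatrix'_id]
  refine ⟨_, LinearMap.toMatrix' X, LinearMap.toMatrix' Y, ?_, h1, h2⟩
  rw [← h1, Matrix.trace_mul_comm, h2, Matrix.trace_one, Fintype.card_fin]

end Pool.Agent.PV
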