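import Pool.Agent.helper77.PV.SpecK

/-! ROW pvk:KPZ (helper92). -/

set_option autoImplicit false

open scoped Matrix Topology
open Filter

namespace Pool.Agent.PV

open Pool.Agent.CZ Pool.Agent.PVH

theorem KPZ (hJCX : JCX_stmt) (hJST : JST_stmt) (hJPR : JPR_stmt) (hJNA : JNA_stmt) (hJCO : JCO_stmt) (hFUN : FUN_stmt) : KPZ_stmt := by
  intro X Y _ _ _ _ α A _ ι u hu r t y s hs
  obtain ⟨φ, hφ⟩ := hJST X α A ι u hu t
  have h1 : k0map (ι.toAlgHom.comp r).toRingHom s = k0map ι.toAlgHom.toRingHom (k0map r.toRingHom s) :=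
    hFUN.2.1 _ _ _ r.toRingHom ι.toAlgHom.toRingHom s
  rw [h1, hJPR X α A ι t φ hφ, hJNA, hJCO Y y s hs, map_zero, hφ, map_zero, map_zero]

end Pool.Agent.PV
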